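import Pool.Graph.R_seed8.S07913

/-!
# Graphs with at most `r` cycles of each length
-/

set_option autoImplicit false

namespace Pool.Agent.Results.MP_2fc3d5_co.RepeatedLengths

open Pool.Agent.S07913.CycQ

/-- The edge sets of the cycles of length `k` of `G`. -/
def cyclesOfLength {V : Type} (G : SimpleGraph V) (k : ℕ) : Set (Set (Sym2 V)) :=
  {S | ∃ (u : V) (p : G.Walk u u), p.IsCycle ∧ p.length = k ∧ S = {e | e ∈ p.edges}}

/-- `maxEdges r n`: the largest number of edges of a graph on `n` vertices which has at most `r`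
cycles of each length. For `r = 1` this is the function `f(n)` of the problem. -/
noncomputable def maxEdges (r n : ℕ) : ℕ :=
  sSup {m : ℕ | ∃ G : SimpleGraph (Fin n), (∀ k, (cyclesOfLength G k).ncard ≤ r) ∧
    G.edgeSet.ncard = m}

/-- `c` is a minimal codeword of the binary linear code `Z`: a nonzero codeword such that no other
nonzero codeword vanishes outside the support of `c`. -/
def IsMinimalCodeword {E : Type} (Z : Submodule (ZMod 2) (E → ZMod 2)) (c : E → ZMod 2) : Prop :=
  c ∈ Z ∧ c ≠ 0 ∧ ∀ z ∈ Z, z ≠ 0 → (∀ e, z e ≠ 0 → c e ≠ 0) → z = c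

section code

variable {E : Type} [Fintype E]

theorem code_sum (Z : Submodule (ZMod 2) (Vc E)) (r : ℕ)
    (hr : ∀ k, ((circ Z).filter (fun c => (supp c).card = k)).card ≤ r) {a : ℝ} (ha : 0 < a) :
    (Module.finrank (ZMod 2) Z : ℝ) ≤ a * Fintype.card E + r * ((107/144) / a) := by
  have h1 := main_ineq Z (fun _ => a) (fun _ => ha.le)
  have h3 : ∑ _e : E, a = a * Fintype.card E := by
    rw [Finset.sum_const, Finset.card_univ, nsmul_eq_mul, mul_comm]
  have hpos : ∀ c ∈ circ Z, 1 ≤ (supp c).card := by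
    intro c hc
    rw [mem_circ] at hc
    rw [Nat.one_le_iff_ne_zero, Ne, Finset.card_eq_zero, supp_eq_empty]
    exact hc.2.1
  have h4 : ∑ c ∈ circ Z, q (wt (fun _ => a) c) ≤ r * ((107/144) / a) := by
    have h5 : ∀ c ∈ circ Z, q (wt (fun _ => a) c) =
        q (a * ((((supp c).card - 1) + 1 : ℕ) : ℝ)) := by
      intro c hc
      rw [Nat.sub_add_cancel (hpos c hc)]
      unfold wt
      rw [Finset.sum_const, nsmul_eq_mul, mul_comm]
    have h6 : ∀ c ∈ circ Z, (supp c).card - 1 ∈ Finset.range (Fintype.card E) := by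
      intro c hc
      rw [Finset.mem_range]
      have := hpos c hc
      have := Finset.card_le_univ (supp c)
      omega
    rw [← Finset.sum_fiberwise_of_maps_to h6]
    have h7 : ∀ i ∈ Finset.range (Fintype.card E),
        ∑ c ∈ (circ Z).filter (fun c => (supp c).card - 1 = i), q (wt (fun _ => a) c) ≤
          r * q (a * ((i + 1 : ℕ) : ℝ)) := by
      intro i _
      have h8 : ∀ c ∈ (circ Z).filter (fun c => (supp c).card - 1 = i),
          q (wt (fun _ => a) c) = q (a * ((i + 1 : ℕ) : ℝ)) := by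
        intro c hc
        rw [Finset.mem_filter] at hc
        rw [h5 c hc.1, hc.2]
      rw [Finset.sum_congr rfl h8, Finset.sum_const, nsmul_eq_mul]
      refine mul_le_mul_of_nonneg_right ?_ (q_nonneg _)
      have h9 : ((circ Z).filter (fun c => (supp c).card - 1 = i)).card ≤ r := by
        refine (Finset.card_le_card ?_).trans (hr (i + 1))
        intro c hc
        rw [Finset.mem_filter] at hc ⊢
        have := hpos c hc.1
        exact ⟨hc.1, by omega⟩
      exact_mod_cast h9
    refine (Finset.sum_le_sum h7).trans ?_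
    rw [← Finset.mul_sum]
    exact mul_le_mul_of_nonneg_left (sum_q ha _) (Nat.cast_nonneg r)
  rw [h3] at h1
  linarith

theorem code_sq (Z : Submodule (ZMod 2) (Vc E)) (r : ℕ)
    (hr : ∀ k, ((circ Z).filter (fun c => (supp c).card = k)).card ≤ r) :
    (Module.finrank (ZMod 2) Z : ℝ) ^ 2 ≤ 107 / 36 * r * Fintype.card E := by
  rcases Nat.eq_zero_or_pos (Module.finrank (ZMod 2) Z) with h0 | h0
  · rw [h0]
    have : (0:ℝ) ≤ 107 / 36 * r * Fintype.card E := by positivity
    simpa using this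
  · have hN : 0 < Fintype.card E := by
      have h1 := Submodule.finrank_le Z
      rw [Module.finrank_fintype_fun_eq_card] at h1
      omega
    have hd : (0:ℝ) < Module.finrank (ZMod 2) Z := by exact_mod_cast h0
    have hN' : (0:ℝ) < Fintype.card E := by exact_mod_cast hN
    have h1 := code_sum Z r hr (a := (Module.finrank (ZMod 2) Z : ℝ) / (2 * Fintype.card E))
      (by positivity)
    set d : ℝ := (Module.finrank (ZMod 2) Z : ℝ) with hd'
    set N : ℝ := (Fintype.card E : ℝ) with hN''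
    have h2 : d / (2 * N) * N = d / 2 := by
      field_simp
    have h3 : (107/144) / (d / (2 * N)) = (107/72) * N / d := by
      field_simp
      norm_num
    rw [h2, h3] at h1
    have h4 : d / 2 ≤ r * ((107/72) * N / d) := by linarith
    have h5 : d / 2 * d ≤ r * ((107/72) * N / d) * d := mul_le_mul_of_nonneg_right h4 hd.le
    have h6 : r * ((107/72) * N / d) * d = r * ((107/72) * N) := by
      field_simp
    rw [h6] at h5
    nlinarith

end code

/-- From the quadratic inequality to the linear one. -/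
theorem quad {m n c : ℝ} (_hm : 0 ≤ m) (hn : 0 ≤ n) (hc : 0 ≤ c) (h : m ≤ n ∨ (m - n) ^ 2 ≤ c * m) :
    m ≤ n + √(c * n) + c := by
  have hs : 0 ≤ √(c * n) := Real.sqrt_nonneg _
  rcases h with h | h
  · linarith
  · by_contra hcon
    push Not at hcon
    have h1 : √(c * n) ^ 2 = c * n := Real.sq_sqrt (mul_nonneg hc hn)
    set s := √(c * n) with hs'
    -- m - n > s + c
    have h2 : s + c < m - n := by linarith
    have h3 : (m - n) ^ 2 ≤ c * (m - n) + c * n := by linarith
    nlinarith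

theorem graph_bound (r n : ℕ) (G : SimpleGraph (Fin n))
    (hG : ∀ k, (cyclesOfLength G k).ncard ≤ r) :
    (G.edgeSet.ncard : ℝ) ≤ n + √(107 * r * n) / 6 + 107 * r / 36 := by
  classical
  have hr : ∀ k, ((circ (cyc G)).filter (fun c => (supp c).card = k)).card ≤ r := by
    intro k
    refine le_trans ?_ (hG k)
    rw [← Set.ncard_coe_finset]
    refine Set.ncard_le_ncard_of_injOn
      (fun c : Vc G.edgeSet => ({e : Sym2 (Fin n) | ∃ h : e ∈ G.edgeSet, c ⟨e, h⟩ ≠ 0}))
      ?_ ?_ (Set.toFinite _)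
    · intro c hc
      rw [Finset.mem_coe, Finset.mem_filter, mem_circ] at hc
      obtain ⟨u, p, hp, hpe, hpl⟩ := circ_cycle hc.1
      refine ⟨u, p, hp, by rw [hpl, hc.2], ?_⟩
      ext e
      constructor
      · rintro ⟨h, h1⟩
        exact (hpe ⟨e, h⟩).2 (mem_supp.2 h1)
      · intro h
        have h1 := p.edges_subset_edgeSet h
        exact ⟨h1, mem_supp.1 ((hpe ⟨e, h1⟩).1 h)⟩
    · intro c _ d _ h
      apply supp_inj
      ext e
      rw [mem_supp, mem_supp]
      have h1 : (e : Sym2 (Fin n)) ∈ {e : Sym2 (Fin n) | ∃ h : e ∈ G.edgeSet, c ⟨e, h⟩ ≠ 0} ↔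
          (e : Sym2 (Fin n)) ∈ {e : Sym2 (Fin n) | ∃ h : e ∈ G.edgeSet, d ⟨e, h⟩ ≠ 0} := by
        have h' : {e : Sym2 (Fin n) | ∃ h : e ∈ G.edgeSet, c ⟨e, h⟩ ≠ 0} =
          {e : Sym2 (Fin n) | ∃ h : e ∈ G.edgeSet, d ⟨e, h⟩ ≠ 0} := h
        rw [h']
      constructor
      · intro h2
        exact (h1.1 ⟨e.2, h2⟩).2
      · intro h2
        exact (h1.2 ⟨e.2, h2⟩).2
  have h1 := code_sq (cyc G) r hr
  have h2 : (Fintype.card G.edgeSet : ℝ) ≤ Fintype.card (Fin n) +
      Module.finrank (ZMod 2) (cyc G) := by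
    exact_mod_cast finrank_cyc G
  have h3 : G.edgeSet.ncard = Fintype.card G.edgeSet := by
    rw [← Nat.card_coe_set_eq, Nat.card_eq_fintype_card]
  rw [Fintype.card_fin] at h2
  rw [h3]
  have h4 : √(107 * r * n) / 6 = √(107 / 36 * r * n) := by
    rw [show (107 / 36 * r * n : ℝ) = 107 * r * n / 6 ^ 2 by ring,
      Real.sqrt_div' _ (by positivity), Real.sqrt_sq (by norm_num)]
  rw [h4]
  have h5 := quad (m := (Fintype.card G.edgeSet : ℝ)) (n := (n : ℝ)) (c := 107 / 36 * r)
    (Nat.cast_nonneg _) (Nat.cast_nonneg _) (by positivity) (by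
      rcases le_or_gt ((Fintype.card G.edgeSet : ℝ)) n with h | h
      · exact Or.inl h
      · right
        have h6 : (0:ℝ) ≤ (Fintype.card G.edgeSet : ℝ) - n := by linarith
        have h7 : ((Fintype.card G.edgeSet : ℝ) - n) ^ 2 ≤
            (Module.finrank (ZMod 2) (cyc G) : ℝ) ^ 2 :=
          pow_le_pow_left₀ h6 (by linarith) 2
        linarith)
  linarith

theorem maxEdges_le (r n : ℕ) : (maxEdges r n : ℝ) ≤ n + √(107 * r * n) / 6 + 107 * r / 36 := by
  have hne : Set.Nonempty {m : ℕ | ∃ G : SimpleGraph (Fin n),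
      (∀ k, (cyclesOfLength G k).ncard ≤ r) ∧ G.edgeSet.ncard = m} := by
    refine ⟨0, ⊥, ?_, ?_⟩
    · intro k
      have h : cyclesOfLength (⊥ : SimpleGraph (Fin n)) k = ∅ := by
        ext S
        constructor
        · rintro ⟨u, p, hp, -⟩
          exact absurd hp (SimpleGraph.isAcyclic_bot p)
        · intro h
          exact absurd h (Set.notMem_empty _)
      rw [h, Set.ncard_empty]
      exact Nat.zero_le _
    · rw [SimpleGraph.edgeSet_bot, Set.ncard_empty]
  have hbdd : BddAbove {m : ℕ | ∃ G : SimpleGraph (Fin n),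
      (∀ k, (cyclesOfLength G k).ncard ≤ r) ∧ G.edgeSet.ncard = m} := by
    refine ⟨⌈(n : ℝ) + √(107 * r * n) / 6 + 107 * r / 36⌉₊, ?_⟩
    rintro m ⟨G, hG, rfl⟩
    have h1 := graph_bound r n G hG
    have h2 := h1.trans (Nat.le_ceil _)
    exact_mod_cast h2
  obtain ⟨G, hG, hm⟩ := Nat.sSup_mem hne hbdd
  have h1 := graph_bound r n G hG
  rw [hm] at h1
  exact h1

theorem result :
    -- (1) all `n` and all multiplicities `r`
    (∀ r n : ℕ, (maxEdges r n : ℝ) ≤ n + √(107 * r * n) / 6 + 107 * r / 36) ∧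
    -- (2) the upper limit, in particular the lower limit of the question
    (√107 / 6 < √3 ∧ ∀ ε : ℝ, 0 < ε → ∃ N : ℕ, ∀ n : ℕ, N ≤ n →
      ((maxEdges 1 n : ℝ) - n) / √n < √107 / 6 + ε) ∧
    -- (3) binary linear codes
    ∀ (E : Type) [Finite E] (Z : Submodule (ZMod 2) (E → ZMod 2)) (r : ℕ),
      (∀ k : ℕ, {c | IsMinimalCodeword Z c ∧ {e | c e ≠ 0}.ncard = k}.ncard ≤ r) →
      (Module.finrank (ZMod 2) Z : ℝ) ^ 2 ≤ 107 / 36 * r * Nat.card E := by
  refine ⟨maxEdges_le, ⟨?_, ?_⟩, ?_⟩
  · rw [div_lt_iff₀ (by norm_num)]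
    have h1 : √3 * 6 = √(3 * 6 ^ 2) := by
      rw [Real.sqrt_mul (by norm_num), Real.sqrt_sq (by norm_num)]
    rw [h1]
    exact Real.sqrt_lt_sqrt (by norm_num) (by norm_num)
  · intro ε hε
    obtain ⟨N, hN⟩ := exists_nat_gt ((107 / 36 / ε) ^ 2)
    refine ⟨N + 1, fun n hn => ?_⟩
    have hn1 : (1 : ℝ) ≤ n := by
      have : 1 ≤ n := by omega
      exact_mod_cast this
    have hn0 : (0 : ℝ) < n := by linarith
    have hs : 0 < √(n : ℝ) := Real.sqrt_pos.2 hn0
    have h1 := maxEdges_le 1 n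
    have h2 : √(107 * (1 : ℕ) * n) / 6 = √107 / 6 * √n := by
      rw [Nat.cast_one, mul_one, Real.sqrt_mul (by norm_num)]
      ring
    rw [h2] at h1
    rw [div_lt_iff₀ hs]
    have h3 : 107 / 36 < ε * √n := by
      have h4 : (107 / 36 / ε) ^ 2 < n := by
        have : (N : ℝ) ≤ n := by
          have : N ≤ n := by omega
          exact_mod_cast this
        linarith
      have h5 : 107 / 36 / ε < √n := Real.lt_sqrt_of_sq_lt h4
      rw [div_lt_iff₀ hε] at h5
      linarith
    push_cast at h1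
    nlinarith
  · intro E _ Z r hr
    classical
    have : Fintype E := Fintype.ofFinite E
    rw [Nat.card_eq_fintype_card]
    refine code_sq Z r (fun k => le_trans ?_ (hr k))
    rw [← Set.ncard_coe_finset]
    refine le_of_eq ?_
    congr 1
    ext c
    rw [Finset.mem_coe, Finset.mem_filter, mem_circ]
    have e1 : {e | c e ≠ 0}.ncard = (supp c).card := by
      rw [← Set.ncard_coe_finset]
      congr 1
      ext e
      rw [Finset.mem_coe, mem_supp]
      rfl
    have e2 : IsCirc Z c ↔ IsMinimalCodeword Z c := by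
      constructor
      · rintro ⟨h1, h2, h3⟩
        exact ⟨h1, h2, fun z hz hz0 h => h3 z hz hz0 (fun e he =>
          mem_supp.2 (h e (mem_supp.1 he)))⟩
      · rintro ⟨h1, h2, h3⟩
        exact ⟨h1, h2, fun z hz hz0 h => h3 z hz hz0 (fun e he =>
          mem_supp.1 (h (mem_supp.2 he)))⟩
    rw [e2, ← e1]
    rfl

end Pool.Agent.Results.MP_2fc3d5_co.RepeatedLengths
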